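import Pool.Agent.H32.N6W.Targets
import Pool.Agent.H50.N6E.ERTH

/-! Row ADR of `n6w_modules`: the symbols above a real place. -/

set_option autoImplicit false

open Polynomial NumberField IsDedekindDomain Matrix Pool.Agent.H32.QC Pool.Agent.H34.N6
open Pool.Agent.H13.DEV Pool.Agent.H34.N6V Pool.Agent.H63.WT Pool.Agent.H32.N6W

namespace Pool.Agent.H23.N6W

theorem hil_complex (a b : ℂ) : hil a b = 1 := by
  rw [hil, if_pos]
  obtain ⟨z, hz⟩ := IsAlgClosed.exists_pow_nat_eq a (n := 2) (by norm_num)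
  refine ⟨1, 0, z, Or.inl one_ne_zero, ?_⟩
  rw [hz]
  ring

theorem hpr_irr {F : Type} [Field F] (p a b : F[X]) (hm : p.Monic) (hi : Irreducible p) :
    hpr p a b = Pool.Agent.H63.WT.hm p a b := by
  classical
  rw [hpr, UniqueFactorizationMonoid.normalizedFactors_irreducible hi, hm.normalize_eq_self]
  simp

theorem hpr_lin (hHMS : T_HMS) (r : ℝ) (a b : ℝ[X]) :
    hpr (X - C r) a b = hil (eval r a) (eval r b) := by
  rw [hpr_irr _ _ _ (monic_X_sub_C r) (irreducible_X_sub_C r),
    hHMS ℝ ℝ (evalRingHom r) _ a b ?_ ?_]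
  · rfl
  · intro x
    exact ⟨C x, by simp⟩
  · intro Q
    rw [coe_evalRingHom, dvd_iff_isRoot]
    rfl

/-- the symbol is trivial modulo a polynomial without real roots -/
theorem hm_quad (hHMS : T_HMS) (p a b : ℝ[X]) (hpm : p.Monic) (hi : Irreducible p)
    (hr : ∀ x : ℝ, eval x p ≠ 0) : Pool.Agent.H63.WT.hm p a b = 1 := by
  obtain ⟨z, hz⟩ := IsAlgClosed.exists_eval₂_eq_zero Complex.ofRealHom p
    (by intro h; exact hi.not_isUnit (isUnit_iff_degree_eq_zero.2 h))
  have him : z.im ≠ 0 := by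
    intro h
    have h1 : z = ((z.re : ℝ) : ℂ) := by
      apply Complex.ext <;> simp [h]
    rw [h1] at hz
    have h2 : eval₂ Complex.ofRealHom (Complex.ofRealHom z.re) p = 0 := hz
    rw [eval₂_at_apply] at h2
    exact hr z.re (by simpa using h2)
  rw [hHMS ℝ ℂ (eval₂RingHom Complex.ofRealHom z) p a b ?_ ?_]
  · exact hil_complex _ _
  · intro w
    refine ⟨C (w.re - w.im / z.im * z.re) + C (w.im / z.im) * X, ?_⟩
    rw [coe_eval₂RingHom, eval₂_add, eval₂_mul, eval₂_C, eval₂_C, eval₂_X]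
    apply Complex.ext
    · simp
    · simp [him]
  · intro Q
    rw [coe_eval₂RingHom]
    let _ : Algebra ℝ ℂ := Complex.ofRealHom.toAlgebra
    constructor
    · intro h
      have h1 : minpoly ℝ z ∣ p := minpoly.dvd ℝ z hz
      have hint : IsIntegral ℝ z := ⟨p, hpm, hz⟩
      have h2 : Associated (minpoly ℝ z) p :=
        (minpoly.irreducible hint).associated_of_dvd hi h1
      exact h2.symm.dvd.trans (minpoly.dvd ℝ z h)
    · rintro ⟨c, rfl⟩
      rw [eval₂_mul, hz, zero_mul]

theorem hpr_noroot (hHMS : T_HMS) (Q a b : ℝ[X]) (hQ : Q ≠ 0) (hr : ∀ x : ℝ, eval x Q ≠ 0) :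
    hpr Q a b = 1 := by
  classical
  rw [hpr]
  apply Multiset.prod_eq_one
  intro x hx
  rw [Multiset.mem_map] at hx
  obtain ⟨p, hp, rfl⟩ := hx
  rw [Polynomial.mem_normalizedFactors_iff hQ] at hp
  obtain ⟨hi, hm, c, hc⟩ := hp
  refine hm_quad hHMS p a b hm hi fun x hx => hr x ?_
  rw [hc, eval_mul, hx, zero_mul]

theorem hpr_mul (hHPM : T_HPM) {F : Type} [Field F] (A B a b : F[X]) (hA : A ≠ 0) (hB : B ≠ 0) :
    hpr (A * B) a b = hpr A a b * hpr B a b := by
  have h := hHPM F Bool Finset.univ (fun j => cond j A B) a b (by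
    intro j _
    cases j
    · exact hB
    · exact hA)
  simpa using h

theorem hpr_real (hHMS : T_HMS) (hHPM : T_HPM) (P a b : ℝ[X]) (hP : P.Monic)
    (hs : P.Separable) : hpr P a b = ∏ r ∈ P.roots.toFinset, hil (eval r a) (eval r b) := by
  classical
  have hdvd : ∏ r ∈ P.roots.toFinset, (X - C r) ∣ P := by
    refine Finset.prod_dvd_of_coprime ?_ fun r hr => ?_
    · intro r _ r' _ hrr
      exact isCoprime_X_sub_C_of_isUnit_sub (sub_ne_zero.2 hrr).isUnit
    · rw [Multiset.mem_toFinset, mem_roots hP.ne_zero] at hr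
      exact dvd_iff_isRoot.2 hr
  obtain ⟨Q, hQ⟩ := hdvd
  have hAm : (∏ r ∈ P.roots.toFinset, (X - C r)).Monic :=
    monic_prod_of_monic _ _ fun r _ => monic_X_sub_C r
  have hQm : Q.Monic := by
    have h1 := hP
    rw [hQ] at h1
    exact hAm.of_mul_monic_left h1
  have hQr : ∀ x : ℝ, eval x Q ≠ 0 := by
    intro x hx
    have hx1 : x ∈ P.roots.toFinset := by
      rw [Multiset.mem_toFinset, mem_roots hP.ne_zero, IsRoot.def]
      rw [hQ, eval_mul, hx, mul_zero]
    have h1 : (X - C x) * (X - C x) ∣ P := by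
      have h2 : (X - C x) * (X - C x) ∣ (∏ r ∈ P.roots.toFinset, (X - C r)) * Q :=
        mul_dvd_mul (Finset.dvd_prod_of_mem _ hx1) (dvd_iff_isRoot.2 hx)
      rwa [← hQ] at h2
    exact (irreducible_X_sub_C x).not_isUnit (hs.squarefree _ h1)
  have h3 : hpr P a b = hpr (∏ r ∈ P.roots.toFinset, (X - C r)) a b * hpr Q a b := by
    rw [← hpr_mul hHPM _ _ a b hAm.ne_zero hQm.ne_zero, ← hQ]
  rw [h3, hpr_noroot hHMS Q a b hQm.ne_zero hQr, mul_one,
    hHPM ℝ ℝ P.roots.toFinset (fun r => X - C r) a b fun r _ => X_sub_C_ne_zero r]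
  exact Finset.prod_congr rfl fun r _ => hpr_lin hHMS r a b

theorem psi_aeval {k L F : Type} [Field k] [Field L] [Algebra k L] [Field F] (v : k →+* F)
    (ψ : L →+* F) (h : ψ.comp (algebraMap k L) = v) (e : L) (Q : k[X]) :
    ψ (aeval e Q) = eval (ψ e) (Q.map v) := by
  rw [aeval_def, hom_eval₂, h, eval_map]

theorem pf_ADR (hHMS : T_HMS) (hHPM : T_HPM) : T_ADR := by
  classical
  intro k L _ _ _ _ _ P D e v B hP hG
  have hint : IsIntegral k e := by
    by_contra h
    have h1 := minpoly.eq_zero h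
    rw [hG.mp] at h1
    exact hP.ne_zero h1
  have hirr : Irreducible P := by
    rw [← hG.mp]
    exact minpoly.irreducible hint
  have hsep : (P.map v).Separable := (hirr.separable).map
  have haev : aeval e P = 0 := by rw [← hG.mp]; exact minpoly.aeval k e
  rw [hpr_real hHMS hHPM _ _ _ (hP.map v) hsep, th, ← finprod_mem_coe_finset]
  refine finprod_mem_eq_of_bijOn (s := {w : Pl L | bel (k := k) w = Sum.inr v})
    (fun w : Pl L => match w with | .inl _ => (0 : ℝ) | .inr ψ => ψ e) ⟨?_, ?_, ?_⟩ ?_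
  · rintro (w | ψ) hw
    · exact absurd hw (by simp [bel])
    · have hψ : ψ.comp (algebraMap k L) = v := Sum.inr.inj hw
      rw [Finset.mem_coe, Multiset.mem_toFinset, mem_roots (hP.map v).ne_zero, IsRoot.def,
        ← psi_aeval v ψ hψ, haev, map_zero]
  · rintro (w | ψ) hw (w' | ψ') hw' hee
    · exact absurd hw (by simp [bel])
    · exact absurd hw (by simp [bel])
    · exact absurd hw' (by simp [bel])
    · have hψ : ψ.comp (algebraMap k L) = v := Sum.inr.inj hw
      have hψ' : ψ'.comp (algebraMap k L) = v := Sum.inr.inj hw'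
      congr 1
      refine RingHom.ext fun y => ?_
      have hy : y ∈ (⊤ : IntermediateField k L) := IntermediateField.mem_top
      rw [← hG.adj, ← IntermediateField.mem_toSubalgebra,
        IntermediateField.adjoin_simple_toSubalgebra_of_isAlgebraic hint.isAlgebraic,
        Algebra.adjoin_singleton_eq_range_aeval] at hy
      obtain ⟨Q, rfl⟩ := hy
      change ψ (aeval e Q) = ψ' (aeval e Q)
      rw [psi_aeval v ψ hψ, psi_aeval v ψ' hψ']
      have hee' : ψ e = ψ' e := hee
      rw [hee']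
  · intro r hr
    rw [Finset.mem_coe, Multiset.mem_toFinset, mem_roots (hP.map v).ne_zero, IsRoot.def,
      eval_map] at hr
    obtain ⟨f, hf, hfk⟩ := Pool.Agent.H50.N6E.pf_RTH k L P e hP hG ℝ v r hr
    exact ⟨Sum.inr f, congrArg Sum.inr (RingHom.ext hfk), hf⟩
  · rintro (w | ψ) hw
    · exact absurd hw (by simp [bel])
    · have hψ : ψ.comp (algebraMap k L) = v := Sum.inr.inj hw
      change hil (ψ (aeval e B)) (ψ (aeval e D)) = _
      rw [psi_aeval v ψ hψ, psi_aeval v ψ hψ]

end Pool.Agent.H23.N6W
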