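import Pool.Agent.H32.N6W.Targets

/-! Row CPN of `n6w_modules`: nearby polynomials are prime to `P`. -/

set_option autoImplicit false

open Polynomial NumberField IsDedekindDomain Matrix Pool.Agent.H32.QC Pool.Agent.H34.N6
open Pool.Agent.H13.DEV Pool.Agent.H34.N6V Pool.Agent.H63.WT Pool.Agent.H32.N6W

namespace Pool.Agent.H23.N6W

/-- the Sylvester matrix as a function of the coefficients of the first polynomial -/
theorem syl_cont {F : Type*} [NormedField F] (P G : F[X]) (m n : ℕ)
    (h0 : resultant G P m n ≠ 0) : ∃ ε : ℝ, 0 < ε ∧ ∀ G' : F[X],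
    (∀ i, ‖(G' - G).coeff i‖ < ε) → resultant G' P m n ≠ 0 := by
  have hc : Continuous fun c : Fin (m + 1) → F => (Matrix.of fun (i j : Fin (m + n)) =>
      j.addCases (motive := fun _ => F)
        (fun j₁ => if (i : ℕ) ∈ Set.Icc (j₁ : ℕ) (j₁ + n) then P.coeff (i - j₁) else 0)
        (fun j₁ => if h : (i : ℕ) ∈ Set.Icc (j₁ : ℕ) (j₁ + m) then
          c ⟨i - j₁, by have := h.2; omega⟩ else 0)).det := by
    refine Continuous.matrix_det (continuous_matrix fun i j => ?_)
    induction j using Fin.addCases with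
    | left j₁ =>
      simp only [Matrix.of_apply, Fin.addCases_left]
      exact continuous_const
    | right j₁ =>
      simp only [Matrix.of_apply, Fin.addCases_right]
      split_ifs with h
      · exact continuous_apply _
      · exact continuous_const
  have heq : ∀ Q : F[X], resultant Q P m n = (Matrix.of fun (i j : Fin (m + n)) =>
      j.addCases (motive := fun _ => F)
        (fun j₁ => if (i : ℕ) ∈ Set.Icc (j₁ : ℕ) (j₁ + n) then P.coeff (i - j₁) else 0)
        (fun j₁ => if h : (i : ℕ) ∈ Set.Icc (j₁ : ℕ) (j₁ + m) then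
          (fun l : Fin (m + 1) => Q.coeff l) ⟨i - j₁, by have := h.2; omega⟩ else 0)).det := by
    intro Q
    rw [resultant]
    rfl
  rw [heq G] at h0
  have h1 := Metric.continuousAt_iff.1 (hc.continuousAt (x := fun l : Fin (m + 1) => G.coeff l)) _
    (norm_pos_iff.2 h0)
  obtain ⟨ε, hε, h2⟩ := h1
  refine ⟨ε, hε, fun G' hG' => ?_⟩
  rw [heq G']
  intro h3
  have h4 := h2 (x := fun l : Fin (m + 1) => G'.coeff l) (by
    rw [dist_pi_lt_iff hε]
    intro l
    rw [dist_eq_norm, ← coeff_sub]
    exact hG' l)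
  rw [h3, dist_zero_left] at h4
  exact lt_irrefl _ h4

theorem cpn_gen {k F : Type*} [Field k] [NormedField F] (ι : k →+* F) (P G : k[X])
    (hG : G.Monic) (h : IsCoprime G P) : ∃ ε : ℝ, 0 < ε ∧ ∀ G' : k[X], G'.Monic →
    G'.natDegree = G.natDegree → (∀ i, ‖ι ((G' - G).coeff i)‖ < ε) → IsCoprime G' P := by
  have h1 : resultant (G.map ι) (P.map ι) G.natDegree P.natDegree ≠ 0 := by
    rw [resultant_map_map]
    exact (map_ne_zero ι).2 ((isUnit_resultant_iff_isCoprime hG).2 h).ne_zero
  obtain ⟨ε, hε, h2⟩ := syl_cont _ _ _ _ h1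
  refine ⟨ε, hε, fun G' hG' hd hc => ?_⟩
  have h3 := h2 (G'.map ι) (fun i => by
    rw [← Polynomial.map_sub, coeff_map]
    exact hc i)
  rw [resultant_map_map, _root_.map_ne_zero, ← hd] at h3
  exact (isUnit_resultant_iff_isCoprime hG').1 (isUnit_iff_ne_zero.2 h3)

theorem pf_CPN : T_CPN := by
  intro k _ _ v P G _ hG h
  match v with
  | .inl v => exact cpn_gen (ic v) P G hG h
  | .inr φ => exact cpn_gen φ P G hG h

end Pool.Agent.H23.N6W
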