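import Pool.Agent.H32.N6W.Targets

/-! Row DEC of `n6w_modules`: the places above `v` and the factors of `P` over the completion. -/

set_option autoImplicit false

open Polynomial NumberField IsDedekindDomain Matrix Pool.Agent.H32.QC Pool.Agent.H34.N6
open Pool.Agent.H13.DEV Pool.Agent.H34.N6V Pool.Agent.H63.WT Pool.Agent.H32.N6W

namespace Pool.Agent.H23.N6W

theorem dense_ic {K : Type} [Field K] [NumberField K] (v : FPl K) : DenseRange (ic v) :=
  HeightOneSpectrum.denseRange_algebraMap K v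

/-- the polynomial of an element over a field -/
theorem exists_poly {F E : Type} [Field F] [Field E] (φ : F →+* E) (t : E) (Q₀ : F[X])
    (h0 : Q₀ ≠ 0) (h1 : eval₂ φ t Q₀ = 0) :
    ∃ p : F[X], p.Monic ∧ Irreducible p ∧ ∀ Q : F[X], eval₂ φ t Q = 0 ↔ p ∣ Q := by
  let _ := φ.toAlgebra
  have hint : IsIntegral F t := by
    rw [← isAlgebraic_iff_isIntegral]
    exact ⟨Q₀, h0, h1⟩
  refine ⟨minpoly F t, minpoly.monic hint, minpoly.irreducible hint, fun Q => ?_⟩
  exact (minpoly.dvd_iff (A := F) (x := t)).symm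

theorem pf_DEC (hDSU : T_DSU) (hDIN : T_DIN) (hDCO : T_DCO) (hFIN : T_FIN) : T_DEC := by
  classical
  intro k L _ _ _ _ _ P e v hP hG
  have hfin : Finite {w : FPl L // w.under (𝓞 k) = v} := by
    have h1 := (hFIN k L).1 (Sum.inl v)
    have h2 : Finite {w : Pl L | bel (k := k) w = Sum.inl v} := h1
    refine Finite.of_injective (β := {w : Pl L | bel (k := k) w = Sum.inl v})
      (fun w => ⟨Sum.inl w.1, ?_⟩) ?_
    · change Sum.inl (w.1.under (𝓞 k)) = Sum.inl v
      rw [w.2]
    · intro w w' h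
      exact Subtype.ext (Sum.inl.inj (Subtype.ext_iff.1 h))
  have hft : Fintype {w : FPl L // w.under (𝓞 k) = v} := Fintype.ofFinite _
  choose φ hφc hφk hφs using fun (i : {w : FPl L // w.under (𝓞 k) = v}) =>
    hDSU k L P e v i.1 hP hG i.2
  have hP0 : P.map (ic v) ≠ 0 := (hP.map _).ne_zero
  have haev : aeval e P = 0 := by rw [← hG.mp]; exact minpoly.aeval k e
  have hroot : ∀ i, eval₂ (φ i) (ic i.1 e) (P.map (ic v)) = 0 := by
    intro i
    rw [eval₂_map]
    have h1 : (φ i).comp (ic v) = kc k i.1 := RingHom.ext (hφk i)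
    rw [h1]
    have h2 : eval₂ (kc k i.1) (ic i.1 e) P = ic i.1 (aeval e P) := by
      rw [aeval_def, hom_eval₂]
    rw [h2, haev, map_zero]
  choose p hpm hpi hpd using fun i => exists_poly (φ i) (ic i.1 e) _ hP0 (hroot i)
  have hinj : ∀ i j, p i = p j → i = j := by
    intro i j hij
    refine Subtype.ext (hDIN k L P e v i.1 j.1 (φ i) (φ j) hP hG (hφc i) (hφk i) (hφc j) (hφk j)
      (hφs i) ?_)
    intro Q hQ
    rw [hpd i, hij] at hQ
    exact (hpd j Q).2 hQ
  have hcop : ∀ i j, i ≠ j → IsCoprime (p i) (p j) := by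
    intro i j hij
    rw [(hpi i).coprime_iff_not_dvd]
    intro hd
    have h1 : Associated (p i) (p j) := (hpi i).associated_of_dvd (hpi j) hd
    exact hij (hinj i j (eq_of_monic_of_associated (hpm i) (hpm j) h1))
  have hdvd : ∏ i, p i ∣ P.map (ic v) := by
    refine Finset.prod_dvd_of_coprime ?_ fun i _ => (hpd i _).1 (hroot i)
    intro i _ j _ hij
    exact hcop i j hij
  obtain ⟨r, hr⟩ := hdvd
  have hqm : (∏ i, p i).Monic := monic_prod_of_monic _ _ fun i _ => hpm i
  have hrm : r.Monic := by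
    have h1 := hP.map (ic v)
    rw [hr] at h1
    exact hqm.of_mul_monic_left h1
  have hr1 : r = 1 := by
    refine hDCO k L P e v (∏ i, p i) r hP hG hqm hrm hr ?_
    intro w ψ hw hψc hψk
    have h1 : ψ = φ ⟨w, hw⟩ := by
      have h2 : (ψ : v.adicCompletion k → w.adicCompletion L) = φ ⟨w, hw⟩ := by
        refine (dense_ic v).equalizer hψc (hφc ⟨w, hw⟩) ?_
        funext x
        rw [Function.comp_apply, Function.comp_apply, hψk, hφk]
      exact RingHom.ext fun x => congrFun h2 x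
    rw [h1]
    exact (hpd ⟨w, hw⟩ _).2 (Finset.dvd_prod_of_mem _ (Finset.mem_univ _))
  refine ⟨{w : FPl L // w.under (𝓞 k) = v}, hft, fun i => i.1, p, ?_⟩
  exact {
    inj := Subtype.val_injective
    mem := fun u => ⟨fun h => ⟨⟨u, h⟩, rfl⟩, fun ⟨i, hi⟩ => by rw [← hi]; exact i.2⟩
    irr := fun i => ⟨hpm i, hpi i⟩
    prod := by rw [hr, hr1, mul_one]
    ev := fun i => ⟨φ i, hφc i, hφk i, hφs i, hpd i⟩ }

end Pool.Agent.H23.N6W
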